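import Pool.Agent.H19.KN.Targets
import Pool.Agent.H62.MK.Tame

universe u

namespace Pool.Agent.H62.KN

open Pool.Agent.H62.MK Pool.Agent.H19.KN

theorem pf_TCU : T_TCU.{u} := by
  intro F κ _ _ D u hu
  exact ⟨fun x => tame_unit_cup_zero D u hu x, fun m x => tame_unit_cup D m u hu x⟩

theorem pf_TZP : T_TZP.{u} := by
  intro F κ _ _ D m
  refine ⟨fun a ha => tame_sym_units D m a ha, fun p g hp hg => ?_⟩
  rw [tame_cup_sym_units D m p g hg, hp, one_smul]

end Pool.Agent.H62.KN
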